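import Pool.Agent.Helper31.TW.St3

/-!
# Module NCC: `NonCrossing` is symmetric under complements
-/

set_option autoImplicit false

namespace Pool.Agent.Helper98.TW

open Pool.Agent.Helper31.TW

theorem hNCC : StNCC := by
  intro n S h I a
  obtain ⟨D, hD, hρ⟩ := h I a
  refine ⟨D, hD, fun ρ => ?_⟩
  obtain ⟨K, E, h1, h2, h3⟩ := hρ ρ
  refine ⟨K, E, h1, h2, fun x x' h4 h5 h6 => ?_⟩
  exact not_congr (h3 x x' h4 h5 h6)

end Pool.Agent.Helper98.TW
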